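import Pool.Agent.Helper32.KD2.Basic
import Pool.Agent.Helper37.KD.Basic
import Pool.Agent.Helper32.KD2.St.C2
import Pool.Agent.Helper32.KD2.St.E1
import Pool.Agent.Helper32.KD2.St.E2
/-! KD2-F3: drift of the exit function (II.4 (b)). -/
namespace KD.II.F3
open Finset MeasureTheory

theorem Psi_off {d N : ℕ} [NeZero N] {κ h : ℝ} (z : GG d N) (hz : z ∉ win κ h) :
    1 ≤ Psi κ h z := by
  have hA : 0 ≤ ∑ i, (pv h z i) ^ 2 := Finset.sum_nonneg (fun i _ => sq_nonneg _)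
  have hB : 0 ≤ ∑ i, |px κ h z i| := Finset.sum_nonneg (fun i _ => abs_nonneg _)
  unfold Psi
  by_contra hc
  push Not at hc
  apply hz
  have h4 : (0 : ℝ) ≤ 1 / 4 := by norm_num
  refine ⟨(pi_norm_le_iff_of_nonneg h4).2 (fun i => ?_),
    (pi_norm_le_iff_of_nonneg h4).2 (fun i => ?_)⟩
  · have h1 : |px κ h z i| ≤ ∑ i, |px κ h z i| :=
      Finset.single_le_sum (f := fun i => |px κ h z i|) (fun i _ => abs_nonneg _) (Finset.mem_univ i)
    rw [Real.norm_eq_abs]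
    linarith
  · have h1 : (pv h z i) ^ 2 ≤ ∑ i, (pv h z i) ^ 2 :=
      Finset.single_le_sum (f := fun i => (pv h z i) ^ 2) (fun i _ => sq_nonneg _)
        (Finset.mem_univ i)
    rw [Real.norm_eq_abs]
    apply abs_le_of_sq_le_sq _ h4
    linarith

/-- pointwise bound for the increment of `Psi` under a jump `h m` -/
theorem incr {d : ℕ} (κ h B : ℝ) (hκ : 0 ≤ κ) (hh : 0 ≤ h) (x v m : Fin d → ℝ)
    (hm : ∀ i, |m i| ≤ B) :
    (16 * ∑ i, (v i + h * m i) ^ 2 + 4 * ∑ i, |x i - κ * (v i + h * m i)|) -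
      (16 * ∑ i, (v i) ^ 2 + 4 * ∑ i, |x i - κ * (v i)|) ≤
    32 * h * ∑ i, v i * m i + d * (16 * h ^ 2 * B ^ 2 + 4 * κ * h * B) := by
  have h1 : ∑ i, (v i + h * m i) ^ 2 = ∑ i, (v i) ^ 2 + 2 * h * ∑ i, v i * m i +
      h ^ 2 * ∑ i, (m i) ^ 2 := by
    rw [Finset.mul_sum, Finset.mul_sum, ← Finset.sum_add_distrib, ← Finset.sum_add_distrib]
    exact Finset.sum_congr rfl (fun i _ => by ring)
  have h2 : ∑ i, (m i) ^ 2 ≤ d * B ^ 2 := by
    have : ∑ i, (m i) ^ 2 ≤ ∑ _i : Fin d, B ^ 2 :=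
      Finset.sum_le_sum (fun i _ => by
        rw [← sq_abs]
        exact pow_le_pow_left₀ (abs_nonneg _) (hm i) 2)
    simpa using this
  have h3 : ∑ i, |x i - κ * (v i + h * m i)| ≤ ∑ i, |x i - κ * (v i)| + d * (κ * h * B) := by
    have : ∑ i, |x i - κ * (v i + h * m i)| ≤ ∑ i, (|x i - κ * (v i)| + κ * h * B) := by
      refine Finset.sum_le_sum (fun i _ => ?_)
      have e : x i - κ * (v i + h * m i) = (x i - κ * v i) + (-(κ * h * m i)) := by ring
      rw [e]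
      refine (abs_add_le _ _).trans ?_
      have : |(-(κ * h * m i))| ≤ κ * h * B := by
        rw [abs_neg, abs_mul, abs_of_nonneg (mul_nonneg hκ hh)]
        exact mul_le_mul_of_nonneg_left (hm i) (mul_nonneg hκ hh)
      linarith
    rw [Finset.sum_add_distrib] at this
    simpa using this
  rw [h1]
  have h4 : h ^ 2 * ∑ i, (m i) ^ 2 ≤ h ^ 2 * (d * B ^ 2) :=
    mul_le_mul_of_nonneg_left h2 (sq_nonneg h)
  nlinarith

/-- cancellation of the linear part -/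
theorem cancel {Θ : Type} [Fintype Θ] (ng : Θ → Θ) (hn : ∀ θ, ng (ng θ) = θ) (F : Θ → ℝ)
    (hF : ∀ θ, F (ng θ) = - F θ) : ∑ θ, F θ = 0 := by
  have e : ∑ θ, F (ng θ) = ∑ θ, F θ :=
    Fintype.sum_equiv (Function.Involutive.toPerm ng hn) _ _ (fun _ => rfl)
  rw [Finset.sum_congr rfl (fun θ _ => hF θ), Finset.sum_neg_distrib] at e
  linarith

/-- geometric sums -/
theorem geo (s : ℝ) (hs : 0 < s) (hs1 : s < 1) (ε : ℝ) (hε : 0 < ε) (K : ℕ) :
    ε * ∑ j ∈ range (K + 3 + 1), (1 / tim s j) * (hh K ^ 2 * 4 ^ j) ≤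
      kk s ε K * ((2 : ℝ) ^ (2 - 2 * s) / ((2 : ℝ) ^ (2 - 2 * s) - 1)) := by
  set q : ℝ := (2 : ℝ) ^ (2 - 2 * s) with hq
  have hq1 : 1 < q := Real.one_lt_rpow one_lt_two (by linarith)
  have hh0 := hh_pos K
  have e1 : ∀ j : ℕ, (1 / tim s j) * (hh K ^ 2 * 4 ^ j) = hh K ^ 2 * q ^ j := by
    intro j
    have : q ^ j = 4 ^ j / tim s j := by
      rw [eq_div_iff (tim_pos s j).ne', hq, ← Real.rpow_natCast, ← Real.rpow_mul two_pos.le]
      unfold tim
      rw [← Real.rpow_add two_pos]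
      rw [show (2 - 2 * s) * (j : ℝ) + 2 * s * (j : ℝ) = ((2 * j : ℕ) : ℝ) by push_cast; ring]
      rw [Real.rpow_natCast, pow_mul]
      norm_num
    rw [this]
    ring
  rw [Finset.sum_congr rfl (fun j _ => e1 j), ← Finset.mul_sum, geom_sum_eq hq1.ne']
  have e2 : hh K ^ 2 * q ^ (K + 3) ≤ hh K ^ (2 * s) := by
    have e3 : hh K ^ 2 * q ^ (K + 3) = hh K ^ (2 * s) * (hh K * 2 ^ (K + 3)) ^ (2 - 2 * s) := by
      rw [Real.mul_rpow hh0.le (by positivity), ← mul_assoc, ← Real.rpow_add hh0]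
      rw [show 2 * s + (2 - 2 * s) = ((2 : ℕ) : ℝ) by push_cast; ring, Real.rpow_natCast]
      congr 1
      rw [hq, ← Real.rpow_natCast, ← Real.rpow_mul two_pos.le, ← Real.rpow_natCast,
        ← Real.rpow_mul two_pos.le]
      congr 1
      ring
    rw [e3]
    have e4 : hh K * 2 ^ (K + 3) ≤ 1 := by
      have := hh_jump K
      rw [pow_succ] at this
      nlinarith
    have e5 : (hh K * 2 ^ (K + 3)) ^ (2 - 2 * s) ≤ 1 :=
      Real.rpow_le_one (by positivity) e4 (by linarith)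
    calc _ ≤ hh K ^ (2 * s) * 1 := mul_le_mul_of_nonneg_left e5 (Real.rpow_nonneg hh0.le _)
      _ = _ := mul_one _
  have e6 : (q ^ (K + 3 + 1) - 1) / (q - 1) ≤ q ^ (K + 3) * (q / (q - 1)) := by
    rw [← mul_div_assoc]
    refine div_le_div_of_nonneg_right ?_ (by linarith)
    rw [pow_succ]
    linarith
  have e7 : 0 ≤ q / (q - 1) := div_nonneg (by linarith) (by linarith)
  unfold kk
  calc ε * (hh K ^ 2 * ((q ^ (K + 3 + 1) - 1) / (q - 1)))
      ≤ ε * (hh K ^ 2 * (q ^ (K + 3) * (q / (q - 1)))) := by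
        refine mul_le_mul_of_nonneg_left ?_ hε.le
        exact mul_le_mul_of_nonneg_left e6 (sq_nonneg _)
    _ = ε * ((hh K ^ 2 * q ^ (K + 3)) * (q / (q - 1))) := by ring
    _ ≤ ε * (hh K ^ (2 * s) * (q / (q - 1))) := by
        refine mul_le_mul_of_nonneg_left ?_ hε.le
        exact mul_le_mul_of_nonneg_right e2 e7
    _ = _ := by ring

theorem geo2 (s : ℝ) (hs : 0 < s) (K : ℕ) :
    ∑ j ∈ range (K + 3 + 1), (1 / tim s j) * (hh K * 2 ^ j) ≤ 1 := by
  have hh0 := hh_pos K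
  have e1 : ∑ j ∈ range (K + 3 + 1), (1 / tim s j) * (hh K * 2 ^ j) ≤
      ∑ j ∈ range (K + 3 + 1), hh K * (2 : ℝ) ^ j := by
    refine Finset.sum_le_sum (fun j _ => ?_)
    have h1 : 1 / tim s j ≤ 1 := by
      rw [div_le_one (tim_pos s j)]
      exact one_le_tim hs j
    have h2 : 0 ≤ hh K * (2 : ℝ) ^ j := by positivity
    nlinarith
  rw [← Finset.mul_sum, geom_sum_eq (by norm_num)] at e1
  have := hh_jump K
  have e2 : hh K * ((2 ^ (K + 3 + 1) - 1) / (2 - 1)) = 1 / 16 - hh K := by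
    rw [← this]; ring
  rw [e2] at e1
  linarith

theorem Psi_drift (d : ℕ) (hd : 1 ≤ d) (s lam Lam M0 C0 : ℝ) (hs : 0 < s) (hs1 : s < 1)
    (hlam : 0 < lam) (hLam : lam ≤ Lam) (hC0 : 0 ≤ C0) :
    ∃ C : ℝ, 0 ≤ C ∧ ∀ (K N : ℕ) [NeZero N] (ε c0 : ℝ) (_ : 0 < ε) (_ : ε ≤ 1)
      (S : JSys d N (K + 3) c0 C0 (Th d (K + 3)))
      (_ : ∀ j θ i, S.pi j θ i = ((ijmp (K + 3) j θ.1 i : ℤ) : ZMod N))
      (_ : 1 / (kk s ε K * hh K) + 1 / hh K + 2 ^ (K + 6) < N)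
      (_ : ε * Lam * rate S s ≤ 1)
      (a : ℕ → Th d (K + 3) → GG d N → ℝ) (_ : S.Coef lam Lam M0 a) (z : GG d N)
      (_ : z ∈ win (kk s ε K) (hh K)),
      gen S s ε a (Psi (kk s ε K) (hh K)) z ≤ Psi (kk s ε K) (hh K) z + kk s ε K * C := by
  set q : ℝ := (2 : ℝ) ^ (2 - 2 * s) with hq
  have hq1 : 1 < q := Real.one_lt_rpow one_lt_two (by linarith)
  have hL : 0 < Lam := lt_of_lt_of_le hlam hLam
  have hq2 : 0 ≤ q / (q - 1) := div_nonneg (by linarith) (by linarith)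
  refine ⟨d + Lam * C0 * d * (64 * (q / (q - 1)) + 8), by positivity, ?_⟩
  intro K N _ ε c0 hε hε1 S hpi hN _ a ha z hz
  set κ := kk s ε K with hκd
  set h := hh K with hhd
  have hκ : 0 < κ := kk_pos hε K
  have hh0 : 0 < h := hh_pos K
  have hkh : 0 < 1 / (κ * h) := by positivity
  have h1h : 0 < 1 / h := by positivity
  -- coordinates after one step
  have hN' : 1 / (κ * h) + 1 / h + 2 ^ (K + 3 + 3) < (N : ℝ) := hN
  have hv : ∀ i, |pv h z i| ≤ 1 / 4 := fun i => by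
    have := norm_le_pi_norm (pv h z) i
    rw [Real.norm_eq_abs] at this
    exact this.trans hz.2
  have h0 := coord_jump hκ hh0 hN' z hz 0 0 (fun i => by simp) (fun i => by simp)
  have hvs0 : z + vs (0 : V d N) = z := by
    have : vs (0 : V d N) = 0 := rfl
    rw [this, add_zero]
  rw [hvs0] at h0
  have hP0 : Psi κ h (Ap 1 z) = 16 * ∑ i, (pv h z i) ^ 2 + 4 * ∑ i, |px κ h z i - κ * pv h z i| := by
    unfold Psi
    rw [h0.1, h0.2]
    simp
  have hA : Psi κ h (Ap 1 z) ≤ Psi κ h z + κ * d := by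
    rw [hP0]
    unfold Psi
    have : ∑ i, |px κ h z i - κ * pv h z i| ≤ ∑ i, (|px κ h z i| + κ * (1 / 4)) := by
      refine Finset.sum_le_sum (fun i _ => ?_)
      have e := abs_sub (px κ h z i) (κ * pv h z i)
      rw [abs_mul, abs_of_pos hκ] at e
      have := mul_le_mul_of_nonneg_left (hv i) hκ.le
      linarith
    rw [Finset.sum_add_distrib] at this
    simp only [Finset.sum_const, Finset.card_univ, Fintype.card_fin, nsmul_eq_mul] at this
    nlinarith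
  -- a single jump
  have hbd : ∀ j ≤ K + 3, ∀ θ : Th d (K + 3), ∀ i, |ijmp (K + 3) j θ.1 i| < 2 ^ (j + 1) :=
    fun j hj θ => (ijmp_ann θ.2 hj).2
  have hbd2 : ∀ j ≤ K + 3, ∀ θ : Th d (K + 3), ∀ i, |ijmp (K + 3) j θ.1 i| < 2 ^ (K + 3 + 1) :=
    fun j hj θ i => lt_of_lt_of_le (hbd j hj θ i)
      (pow_le_pow_right₀ (by norm_num) (by omega))
  have hjump : ∀ j ≤ K + 3, ∀ θ : Th d (K + 3),
      Psi κ h (Ap 1 (z + S.jv j θ)) - Psi κ h (Ap 1 z) ≤
      32 * h * ∑ i, pv h z i * ((ijmp (K + 3) j θ.1 i : ℤ) : ℝ) +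
        d * (16 * h ^ 2 * (2 ^ (j + 1)) ^ 2 + 4 * κ * h * 2 ^ (j + 1)) := by
    intro j hj θ
    have h1 := coord_jump hκ hh0 hN' z hz (S.pi j θ) (ijmp (K + 3) j θ.1) (hbd2 j hj θ)
      (hpi j θ)
    have hP1 : Psi κ h (Ap 1 (z + S.jv j θ)) =
        16 * ∑ i, (pv h z i + h * ((ijmp (K + 3) j θ.1 i : ℤ) : ℝ)) ^ 2 +
        4 * ∑ i, |px κ h z i - κ * (pv h z i + h * ((ijmp (K + 3) j θ.1 i : ℤ) : ℝ))| := by
      unfold Psi JSys.jv
      rw [h1.1, h1.2]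
      simp [mul_add]
    rw [hP1, hP0]
    refine incr κ h _ hκ.le hh0.le _ _ _ (fun i => ?_)
    have := hbd j hj θ i
    have h2 : ((|ijmp (K + 3) j θ.1 i| : ℤ) : ℝ) < ((2 ^ (j + 1) : ℤ) : ℝ) := by exact_mod_cast this
    push_cast at h2
    exact h2.le
  -- antisymmetry of the integer jumps
  have hanti : ∀ j ≤ K + 3, ∀ θ : Th d (K + 3), ∀ i,
      ijmp (K + 3) j (S.neg θ).1 i = - ijmp (K + 3) j θ.1 i := by
    intro j hj θ i
    have hNi : 2 * (2 : ℤ) ^ (K + 3 + 1) < (N : ℤ) := by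
      have : (2 : ℝ) ^ (K + 6) < N := by linarith
      have h3 : (2 : ℝ) * 2 ^ (K + 3 + 1) < N := by
        have : (2 : ℝ) * 2 ^ (K + 3 + 1) ≤ 2 ^ (K + 6) := by
          rw [← pow_succ']
          exact pow_le_pow_right₀ (by norm_num) (by omega)
        linarith
      exact_mod_cast h3
    have e1 := vma_cast (N := N) (ijmp (K + 3) j (S.neg θ).1 i)
      (by have := hbd2 j hj (S.neg θ) i; omega)
    have e2 := vma_cast (N := N) (- ijmp (K + 3) j θ.1 i)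
      (by have := hbd2 j hj θ i; rw [abs_neg]; omega)
    have e3 : ((ijmp (K + 3) j (S.neg θ).1 i : ℤ) : ZMod N) = ((- ijmp (K + 3) j θ.1 i : ℤ) : ZMod N) := by
      rw [← hpi, S.pi_neg, Pi.neg_apply, hpi]
      push_cast
      rfl
    rw [← e1, e3, e2]
  -- sum over the indices at a fixed scale
  have hsc : ∀ j ∈ range (K + 3 + 1), ∑ θ, S.wt s j θ * a j θ z *
      (Psi κ h (Ap 1 (z + S.jv j θ)) - Psi κ h (Ap 1 z)) ≤
      Lam * C0 * d * (64 * ((1 / tim s j) * (h ^ 2 * 4 ^ j)) +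
        8 * κ * ((1 / tim s j) * (h * 2 ^ j))) := by
    intro j hj
    have hj' : j ≤ K + 3 := by
      have := Finset.mem_range.1 hj
      omega
    have hw : ∀ θ, 0 ≤ S.wt s j θ := fun θ => div_nonneg (S.m_nn θ) (tim_pos s j).le
    have ha0 : ∀ θ, 0 ≤ a j θ z := fun θ => hlam.le.trans (ha.lo j θ z)
    have hD : 0 ≤ d * (16 * h ^ 2 * (2 ^ (j + 1)) ^ 2 + 4 * κ * h * 2 ^ (j + 1)) := by positivity
    have s1 : ∑ θ, S.wt s j θ * a j θ z *
        (Psi κ h (Ap 1 (z + S.jv j θ)) - Psi κ h (Ap 1 z)) ≤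
        ∑ θ, (S.wt s j θ * a j θ z * (32 * h * ∑ i, pv h z i * ((ijmp (K + 3) j θ.1 i : ℤ) : ℝ)) +
          S.wt s j θ * Lam * (d * (16 * h ^ 2 * (2 ^ (j + 1)) ^ 2 + 4 * κ * h * 2 ^ (j + 1)))) := by
      refine Finset.sum_le_sum (fun θ _ => ?_)
      have t1 := mul_le_mul_of_nonneg_left (hjump j hj' θ) (mul_nonneg (hw θ) (ha0 θ))
      refine t1.trans ?_
      rw [mul_add]
      have t2 : S.wt s j θ * a j θ z ≤ S.wt s j θ * Lam :=
        mul_le_mul_of_nonneg_left (ha.hi j θ z) (hw θ)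
      have t3 := mul_le_mul_of_nonneg_right t2 hD
      linarith
    have s2 : ∑ θ, S.wt s j θ * a j θ z *
        (32 * h * ∑ i, pv h z i * ((ijmp (K + 3) j θ.1 i : ℤ) : ℝ)) = 0 := by
      refine cancel S.neg S.neg_neg _ (fun θ => ?_)
      have u1 : S.wt s j (S.neg θ) = S.wt s j θ := by
        unfold JSys.wt
        rw [S.m_neg]
      have u2 : ∑ i, pv h z i * ((ijmp (K + 3) j (S.neg θ).1 i : ℤ) : ℝ) =
          - ∑ i, pv h z i * ((ijmp (K + 3) j θ.1 i : ℤ) : ℝ) := by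
        rw [← Finset.sum_neg_distrib]
        refine Finset.sum_congr rfl (fun i _ => ?_)
        rw [hanti j hj' θ i]
        push_cast
        ring
      rw [u1, u2, ha.symm]
      ring
    rw [Finset.sum_add_distrib, s2, zero_add, ← Finset.sum_mul, ← Finset.sum_mul] at s1
    have s3 : ∑ θ, S.wt s j θ ≤ C0 * (1 / tim s j) := by
      unfold JSys.wt
      rw [← Finset.sum_div, div_eq_mul_one_div]
      exact mul_le_mul_of_nonneg_right S.mass (by have := tim_pos s j; positivity)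
    refine s1.trans ?_
    have s4 := mul_le_mul_of_nonneg_right (mul_le_mul_of_nonneg_right s3 hL.le) hD
    refine s4.trans (le_of_eq ?_)
    have p1 : ((2 : ℝ) ^ (j + 1)) ^ 2 = 4 * 4 ^ j := by
      rw [← pow_mul, mul_comm, pow_mul, pow_succ]
      norm_num
      ring
    rw [p1, pow_succ]
    ring
  -- conclusion
  have hsum : ε * ∑ j ∈ range (K + 3 + 1), ∑ θ, S.wt s j θ * a j θ z *
      (Psi κ h (Ap 1 (z + S.jv j θ)) - Psi κ h (Ap 1 z)) ≤
      κ * (Lam * C0 * d * (64 * (q / (q - 1)) + 8)) := by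
    have t1 := Finset.sum_le_sum hsc
    rw [← Finset.mul_sum, Finset.sum_add_distrib, ← Finset.mul_sum, ← Finset.mul_sum] at t1
    have t2 := mul_le_mul_of_nonneg_left t1 hε.le
    refine t2.trans ?_
    have g1 := geo s hs hs1 ε hε K
    have g2 := geo2 s hs K
    rw [← hq, ← hκd] at g1
    rw [← hhd] at g1 g2
    have hLC : 0 ≤ Lam * C0 * d := by positivity
    have g3 : ε * (8 * κ * ∑ j ∈ range (K + 3 + 1), (1 / tim s j) * (h * 2 ^ j)) ≤ 8 * κ := by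
      have : 8 * κ * ∑ j ∈ range (K + 3 + 1), (1 / tim s j) * (h * 2 ^ j) ≤ 8 * κ * 1 :=
        mul_le_mul_of_nonneg_left g2 (by positivity)
      have g4 : 0 ≤ 8 * κ * ∑ j ∈ range (K + 3 + 1), (1 / tim s j) * (h * 2 ^ j) := by
        refine mul_nonneg (by positivity) (Finset.sum_nonneg (fun j _ => ?_))
        have := tim_pos s j
        positivity
      nlinarith
    calc ε * (Lam * C0 * d * (64 * ∑ j ∈ range (K + 3 + 1), (1 / tim s j) * (h ^ 2 * 4 ^ j) +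
          8 * κ * ∑ j ∈ range (K + 3 + 1), (1 / tim s j) * (h * 2 ^ j)))
        = Lam * C0 * d * (64 * (ε * ∑ j ∈ range (K + 3 + 1), (1 / tim s j) * (h ^ 2 * 4 ^ j)) +
          ε * (8 * κ * ∑ j ∈ range (K + 3 + 1), (1 / tim s j) * (h * 2 ^ j))) := by ring
      _ ≤ Lam * C0 * d * (64 * (κ * (q / (q - 1))) + 8 * κ) := by
          refine mul_le_mul_of_nonneg_left ?_ hLC
          linarith
      _ = _ := by ring
  have hg : gen S s ε a (Psi κ h) z = Psi κ h (Ap 1 z) + ε * ∑ j ∈ range (K + 3 + 1), ∑ θ,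
      S.wt s j θ * a j θ z * (Psi κ h (Ap 1 (z + S.jv j θ)) - Psi κ h (Ap 1 z)) := rfl
  rw [hg]
  nlinarith

end KD.II.F3
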